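import Pool.Agent.H.MP_8ed827_gt.Main

namespace Pool.Agent.Results.MP_8ed827_gt.No

open Pool.Agent.H.MP_8ed827_gt

theorem result : ∃ (g : ℝ → Fin 5 → ℝ) (s s' : ℝ), Geod g ∧
    tcut (fun t => g (t + s)) = ⊤ ∧ tcut (fun t => g (t + s')) < ⊤ :=
  ⟨gam, 2, -100, geod, tcut_top, tcut_fin.trans_lt ENNReal.ofReal_lt_top⟩

end Pool.Agent.Results.MP_8ed827_gt.No
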